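import Mathlib

/-!
# Package GEST of project TQ (helper9): the complex inequality, elementary part (helper38)
-/

set_option autoImplicit false
set_option maxHeartbeats 2000000

namespace Pool.Agent.P8H38.TQ

/-- the clamped size -/
noncomputable def cl (h x : ℝ) : ℝ := max (min x 1) h

theorem cl_le_one {h x : ℝ} (h1 : h ≤ 1) : cl h x ≤ 1 := max_le (min_le_right _ _) h1

theorem h_le_cl (h x : ℝ) : h ≤ cl h x := le_max_right _ _

theorem cl_mono {h x y : ℝ} (hxy : x ≤ y) : cl h x ≤ cl h y :=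
  max_le_max (min_le_min hxy le_rfl) le_rfl

theorem cl_small {h x : ℝ} (hx : x ≤ 1) : cl h x = max x h := by
  unfold cl; rw [min_eq_left hx]

theorem le_cl_mul {h x : ℝ} (h0 : 0 < h) (hx : 0 ≤ x) : x ≤ cl h x * max 1 x := by
  rcases le_total x 1 with h1 | h1
  · rw [cl_small h1, max_eq_left h1, mul_one]; exact le_max_left _ _
  · rw [max_eq_right h1]
    have : 1 ≤ cl h x := by unfold cl; rw [min_eq_right h1]; exact le_max_left _ _
    nlinarith

/-- upper bound -/
theorem upper (h ρ x y d p s u v q : ℝ) (h0 : 0 < h) (h1 : h ≤ 1 / 1000) (hρ : h ≤ ρ)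
    (hx : 0 ≤ x) (hy : 0 ≤ y) (hd0 : 0 ≤ d) (hd : d ≤ x + y)
    (hp0 : 0 ≤ p) (hp : p ≤ x * y + h ^ 2) (hs0 : 0 ≤ s) (hs : s ≤ 2 + x + y)
    (hu0 : 0 ≤ u) (hu : u ≤ 1 + x) (hv0 : 0 ≤ v) (hv : v ≤ 1 + y)
    (hq : q ≤ p ^ 2 + 4 * h ^ 2 * (u * v)) :
    max (ρ ^ 2 * d ^ 2) (max (ρ * (2 * p * s)) q) ≤
      20 * ((max 1 x * max 1 y) ^ 2 *
        max (ρ ^ 2 * max (cl h x) (cl h y) ^ 2) (max (ρ * (cl h x * cl h y))
          (max ((cl h x * cl h y) ^ 2) (h ^ 2)))) := by
  have hρ0 : 0 < ρ := by linarith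
  have xa := le_cl_mul h0 hx
  have yb := le_cl_mul h0 hy
  have hA1 : cl h x ≤ 1 := cl_le_one (by linarith)
  have hB1 : cl h y ≤ 1 := cl_le_one (by linarith)
  have hAh := h_le_cl h x
  have hBh := h_le_cl h y
  set A := cl h x
  set B := cl h y
  have ha1 : 1 ≤ max 1 x := le_max_left _ _
  have hb1 : 1 ≤ max 1 y := le_max_left _ _
  have hax : x ≤ max 1 x := le_max_right _ _
  have hby : y ≤ max 1 y := le_max_right _ _
  set a := max 1 x
  set b := max 1 y
  have hab : 1 ≤ a * b := by nlinarith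
  have hM : 1 ≤ (a * b) ^ 2 := by nlinarith
  have hMM : a * b ≤ (a * b) ^ 2 := by nlinarith
  have hAB0 : 0 < A * B := mul_pos (by linarith) (by linarith)
  have hh : h ^ 2 ≤ A * B := by nlinarith
  have hh2 : A * B ≤ A * B * (a * b) := le_mul_of_one_le_right hAB0.le hab
  have haab : a ≤ a * b := le_mul_of_one_le_right (by linarith) hb1
  have hbab : b ≤ a * b := le_mul_of_one_le_left (by linarith) ha1
  refine max_le ?_ (max_le ?_ ?_)
  · refine le_trans ?_ (mul_le_mul_of_nonneg_left (mul_le_mul_of_nonneg_left (le_max_left _ _)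
      (by positivity)) (by norm_num))
    have hm1 : A ≤ max A B := le_max_left _ _
    have hm2 : B ≤ max A B := le_max_right _ _
    set m := max A B
    have hm0 : 0 < m := by linarith
    have hd2 : d ≤ 2 * (m * (a * b)) := by
      have e1 : A * a ≤ m * (a * b) := by
        calc A * a ≤ m * a := mul_le_mul_of_nonneg_right hm1 (by linarith)
          _ = m * (a * 1) := by ring
          _ ≤ m * (a * b) := by gcongr
      have e2 : B * b ≤ m * (a * b) := by
        calc B * b ≤ m * b := mul_le_mul_of_nonneg_right hm2 (by linarith)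
          _ = m * (1 * b) := by ring
          _ ≤ m * (a * b) := by gcongr
      linarith
    have hd3 : d ^ 2 ≤ (2 * (m * (a * b))) ^ 2 := by gcongr
    have hr : 0 ≤ ρ ^ 2 * (m * (a * b)) ^ 2 := by positivity
    calc ρ ^ 2 * d ^ 2 ≤ ρ ^ 2 * (2 * (m * (a * b))) ^ 2 := by gcongr
      _ ≤ 20 * ((a * b) ^ 2 * (ρ ^ 2 * m ^ 2)) := by nlinarith
  · refine le_trans ?_ (mul_le_mul_of_nonneg_left (mul_le_mul_of_nonneg_left
      ((le_max_left _ _).trans (le_max_right _ _)) (by positivity)) (by norm_num))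
    have e1 : x * y ≤ A * B * (a * b) := by
      calc x * y ≤ (A * a) * (B * b) := mul_le_mul xa yb hy (by nlinarith)
        _ = _ := by ring
    have e2 : p ≤ 2 * (A * B * (a * b)) := by linarith
    have e3 : s ≤ 4 * (a * b) := by linarith
    calc ρ * (2 * p * s) ≤ ρ * (2 * (2 * (A * B * (a * b))) * (4 * (a * b))) := by gcongr
      _ = 16 * ((a * b) ^ 2 * (ρ * (A * B))) := by ring
      _ ≤ 20 * ((a * b) ^ 2 * (ρ * (A * B))) := by
        have : 0 ≤ (a * b) ^ 2 * (ρ * (A * B)) := by positivity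
        linarith
  · refine le_trans ?_ (mul_le_mul_of_nonneg_left (mul_le_mul_of_nonneg_left
      ((le_max_right _ _).trans (le_max_right _ _)) (by positivity)) (by norm_num))
    have e1 : x * y ≤ A * B * (a * b) := by
      calc x * y ≤ (A * a) * (B * b) := mul_le_mul xa yb hy (by nlinarith)
        _ = _ := by ring
    have e2 : p ≤ 2 * (A * B * (a * b)) := by linarith
    have e3 : p ^ 2 ≤ (2 * (A * B * (a * b))) ^ 2 := by gcongr
    have e4 : u * v ≤ (2 * a) * (2 * b) := by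
      apply mul_le_mul <;> linarith
    have m1 : (A * B) ^ 2 ≤ max ((A * B) ^ 2) (h ^ 2) := le_max_left _ _
    have m2 : h ^ 2 ≤ max ((A * B) ^ 2) (h ^ 2) := le_max_right _ _
    set m := max ((A * B) ^ 2) (h ^ 2)
    have f1 : p ^ 2 ≤ 4 * ((a * b) ^ 2 * m) := by
      calc p ^ 2 ≤ (2 * (A * B * (a * b))) ^ 2 := e3
        _ = 4 * ((a * b) ^ 2 * (A * B) ^ 2) := by ring
        _ ≤ _ := by gcongr
    have f2 : 4 * h ^ 2 * (u * v) ≤ 16 * ((a * b) ^ 2 * m) := by
      calc 4 * h ^ 2 * (u * v) ≤ 4 * h ^ 2 * ((2 * a) * (2 * b)) := by gcongr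
        _ = 16 * ((a * b) * h ^ 2) := by ring
        _ ≤ 16 * ((a * b) ^ 2 * m) := by
          gcongr
    linarith

/-- case 1: both numbers are at least `1/8` -/
theorem low1 (h x y p u v q : ℝ) (h0 : 0 < h) (h1 : h ≤ 1 / 1000)
    (hx : 1 / 8 < x) (hy : 1 / 8 < y) (hp1 : x * y - h ^ 2 ≤ p)
    (hu0 : 0 ≤ u) (hu : u ≤ 1 + x) (hv0 : 0 ≤ v) (hv : v ≤ 1 + y)
    (hq1 : p ^ 2 - 4 * h ^ 2 * (u * v) ≤ q) :
    (max 1 x * max 1 y) ^ 2 ≤ 10000 * q := by
  have hxy : 1 / 64 < x * y := by nlinarith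
  have hh : h ^ 2 ≤ 1 / 1000000 := by nlinarith
  have hp : 0.99 * (x * y) ≤ p := by nlinarith
  have hp2 : (0.99 * (x * y)) ^ 2 ≤ p ^ 2 := by gcongr
  have huv : u * v ≤ (9 * x) * (9 * y) := by
    apply mul_le_mul <;> linarith
  have hxy2 : x * y ≤ 64 * (x * y) ^ 2 := by nlinarith
  have h3 : 4 * h ^ 2 * (u * v) ≤ 0.03 * (x * y) ^ 2 := by
    calc 4 * h ^ 2 * (u * v) ≤ 4 * (1 / 1000000) * ((9 * x) * (9 * y)) := by gcongr
      _ = 4 * (1 / 1000000) * 81 * (x * y) := by ring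
      _ ≤ 4 * (1 / 1000000) * 81 * (64 * (x * y) ^ 2) := by gcongr
      _ ≤ 0.03 * (x * y) ^ 2 := by nlinarith [sq_nonneg (x * y)]
  have hq : 0.9 * (x * y) ^ 2 ≤ q := by nlinarith
  have ha : max 1 x ≤ 8 * x := max_le (by linarith) (by linarith)
  have hb : max 1 y ≤ 8 * y := max_le (by linarith) (by linarith)
  calc (max 1 x * max 1 y) ^ 2 ≤ ((8 * x) * (8 * y)) ^ 2 := by gcongr
    _ = 4096 * (x * y) ^ 2 := by ring
    _ ≤ 10000 * (0.9 * (x * y) ^ 2) := by nlinarith [sq_nonneg (x * y)]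
    _ ≤ 10000 * q := by gcongr

/-- case 2: one number is large, the other small -/
theorem low2 (h ρ x y d p u v q G : ℝ) (h0 : 0 < h) (h1 : h ≤ 1 / 1000) (hρ : h ≤ ρ)
    (hx : 1 / 4 < x) (hy0 : 0 ≤ y) (hy : y ≤ 1 / 8) (hd : x - y ≤ d) (hp1 : x * y - h ^ 2 ≤ p)
    (hu0 : 0 ≤ u) (hu : u ≤ 1 + x) (hv0 : 0 ≤ v) (hv : v ≤ 1 + y)
    (hq1 : p ^ 2 - 4 * h ^ 2 * (u * v) ≤ q) (G1 : ρ ^ 2 * d ^ 2 ≤ G) (G3 : q ≤ G) :
    (max 1 x) ^ 2 * max ρ (cl h y) ^ 2 ≤ 30000 * G := by
  have hρ0 : 0 < ρ := by linarith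
  have ha : max 1 x ≤ 4 * x := max_le (by linarith) (by linarith)
  have ha1 : 1 ≤ max 1 x := le_max_left _ _
  have ha2 : (max 1 x) ^ 2 ≤ 16 * x ^ 2 := by
    calc (max 1 x) ^ 2 ≤ (4 * x) ^ 2 := by gcongr
      _ = _ := by ring
  have hB : cl h y = max y h := cl_small (by linarith)
  set B := cl h y
  rcases le_or_gt B (20 * ρ) with hc | hc
  · have hm : max ρ B ≤ 20 * ρ := max_le (by linarith) hc
    have hd2 : x / 2 ≤ d := by linarith
    have hd3 : (x / 2) ^ 2 ≤ d ^ 2 := by gcongr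
    have hm0 : 0 ≤ max ρ B := le_trans hρ0.le (le_max_left _ _)
    calc (max 1 x) ^ 2 * max ρ B ^ 2 ≤ (16 * x ^ 2) * (20 * ρ) ^ 2 := by gcongr
      _ = 25600 * (ρ ^ 2 * (x / 2) ^ 2) := by ring
      _ ≤ 25600 * (ρ ^ 2 * d ^ 2) := by gcongr
      _ ≤ 30000 * G := by nlinarith [mul_nonneg (sq_nonneg ρ) (sq_nonneg d)]
  · have hyh : h ≤ y := by
      by_contra hcon
      push Not at hcon
      rw [max_eq_right hcon.le] at hB
      nlinarith
    rw [max_eq_left hyh] at hB
    have hm : max ρ B = y := by rw [max_eq_right (by linarith), hB]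
    rw [hB] at hc
    have hy1 : 0 < y := by linarith
    have hhy : h ≤ y / 20 := by linarith
    have hh2 : h ^ 2 ≤ (y / 20) ^ 2 := by gcongr
    have hh3 : h ^ 2 ≤ y / 20 * (1 / 1000) := by nlinarith
    have hyx : y ≤ 4 * (x * y) := by nlinarith
    have hp : 0.99 * (x * y) ≤ p := by nlinarith
    have hxy0 : 0 < x * y := by positivity
    have hp2 : (0.99 * (x * y)) ^ 2 ≤ p ^ 2 := by gcongr
    have huv : u * v ≤ (5 * x) * (9 / 8) := by
      apply mul_le_mul <;> linarith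
    have h3 : 4 * h ^ 2 * (u * v) ≤ 0.23 * (x * y) ^ 2 := by
      calc 4 * h ^ 2 * (u * v) ≤ 4 * (y / 20) ^ 2 * ((5 * x) * (9 / 8)) := by gcongr
        _ = 0.05625 * y * (x * y) := by ring
        _ ≤ 0.05625 * (4 * (x * y)) * (x * y) := by gcongr
        _ ≤ 0.23 * (x * y) ^ 2 := by nlinarith
    have hq : 0.7 * (x * y) ^ 2 ≤ q := by nlinarith
    rw [hm]
    calc (max 1 x) ^ 2 * y ^ 2 ≤ (16 * x ^ 2) * y ^ 2 := by gcongr
      _ = 16 * (x * y) ^ 2 := by ring
      _ ≤ 30000 * G := by nlinarith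

/-- case 3: both numbers are at most `1/4` -/
theorem low3 (h ρ x y d p s u v q G : ℝ) (h0 : 0 < h) (h1 : h ≤ 1 / 1000) (hρ : h ≤ ρ)
    (ρ1 : ρ ≤ 1) (hxy : y ≤ x) (hx : x ≤ 1 / 4) (hy0 : 0 ≤ y) (hd : x - y ≤ d)
    (hp0 : 0 ≤ p) (hp1 : x * y - h ^ 2 ≤ p) (hp2 : p ≤ x * y + h ^ 2) (hs : 3 / 2 ≤ s)
    (hu0 : 3 / 4 ≤ u) (hu : u ≤ 5 / 4) (hv0 : 3 / 4 ≤ v) (hv : v ≤ 5 / 4)
    (hq1 : p ^ 2 - 4 * h ^ 2 * (u * v) ≤ q) (hq2 : 4 * h ^ 2 * (u * v) - p ^ 2 ≤ q)
    (G1 : ρ ^ 2 * d ^ 2 ≤ G) (G2 : ρ * (2 * p * s) ≤ G) (G3 : q ≤ G) :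
    ρ ^ 2 * max x h ^ 2 ≤ 30000 * G ∧ ρ * (max x h * max y h) ≤ 30000 * G ∧
      (max x h * max y h) ^ 2 ≤ 30000 * G ∧ h ^ 2 ≤ 30000 * G := by
  have hρ0 : 0 < ρ := by linarith
  have hG0 : 0 ≤ G := le_trans (by positivity) G1
  have hAB : max y h ≤ max x h := max_le_max hxy le_rfl
  have hAx : x ≤ max x h := le_max_left _ _
  have hAh : h ≤ max x h := le_max_right _ _
  have hBy : y ≤ max y h := le_max_left _ _
  have hBh : h ≤ max y h := le_max_right _ _
  have hA1 : max x h ≤ 1 / 4 := max_le hx (by linarith)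
  have hAc : max x h = x ∨ max x h = h := max_choice _ _
  have hBc : (h ≤ y ∧ max y h = y) ∨ (y < h ∧ max y h = h) := by
    rcases le_or_gt h y with h2 | h2
    · exact Or.inl ⟨h2, max_eq_left h2⟩
    · exact Or.inr ⟨h2, max_eq_right h2.le⟩
  have hxA : h ≤ x → max x h = x := fun h2 => max_eq_left h2
  generalize max x h = A at *
  generalize max y h = B at *
  have hA0 : 0 < A := by linarith
  have hB0 : 0 < B := by linarith
  have hAB0 : 0 < A * B := by positivity
  have hh0 : 0 < h ^ 2 := by positivity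
  have hh2 : h ^ 2 ≤ h / 1000 := by nlinarith
  have huv1 : 9 / 16 ≤ u * v := by nlinarith
  have huv2 : u * v ≤ 25 / 16 := by nlinarith
  have hk1 : 2.25 * h ^ 2 ≤ 4 * h ^ 2 * (u * v) := by nlinarith [sq_nonneg h]
  have hk2 : 4 * h ^ 2 * (u * v) ≤ 6.25 * h ^ 2 := by nlinarith [sq_nonneg h]
  -- the small case
  have small : x * y ≤ h / 4 → 2 * h ^ 2 ≤ G := by
    intro hc
    have h5 : p ≤ 0.251 * h := by linarith
    have h6 : p ^ 2 ≤ (0.251 * h) ^ 2 := by gcongr
    have h7 : (0.251 * h) ^ 2 = 0.063001 * h ^ 2 := by ring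
    linarith
  rcases le_or_gt (4 * B) A with hc | hc
  · -- case 3a
    have hxh : h ≤ x := by
      rcases hAc with h2 | h2
      · linarith
      · linarith
    have hAeq := hxA hxh
    subst hAeq
    have hd2 : A * (3 / 4) ≤ d := by linarith
    have hd3 : (A * (3 / 4)) ^ 2 ≤ d ^ 2 := by gcongr
    have hT1 : ρ ^ 2 * A ^ 2 ≤ 2 * G := by
      have h5 : ρ ^ 2 * (A * (3 / 4)) ^ 2 ≤ ρ ^ 2 * d ^ 2 := by gcongr
      have h6 : ρ ^ 2 * (A * (3 / 4)) ^ 2 = 9 / 16 * (ρ ^ 2 * A ^ 2) := by ring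
      have h7 : 0 ≤ ρ ^ 2 * A ^ 2 := by positivity
      linarith
    rcases hBc with ⟨h2, h3⟩ | ⟨h2, h3⟩
    · subst h3
      have h4 : 4 * h ^ 2 ≤ A * B := by
        calc 4 * h ^ 2 = (4 * h) * h := by ring
          _ ≤ A * B := mul_le_mul (by linarith) hBh h0.le hA0.le
      have hp : 3 / 4 * (A * B) ≤ p := by linarith
      have hps : 2.25 * (A * B) ≤ 2 * p * s := by
        calc 2.25 * (A * B) = 2 * (3 / 4 * (A * B)) * (3 / 2) := by ring
          _ ≤ 2 * p * s := by gcongr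
      have hT2 : ρ * (2.25 * (A * B)) ≤ G := le_trans (by gcongr) G2
      have hT2' : ρ * (A * B) ≤ G := by
        have : 0 < ρ * (A * B) := by positivity
        linarith
      rcases le_or_gt (10 * h) (A * B) with hd4 | hd4
      · have hp3 : (3 / 4 * (A * B)) ^ 2 ≤ p ^ 2 := by gcongr
        have hh3 : (10 * h) ^ 2 ≤ (A * B) ^ 2 := by gcongr
        have e1 : (3 / 4 * (A * B)) ^ 2 = 9 / 16 * (A * B) ^ 2 := by ring
        have e2 : (10 * h) ^ 2 = 100 * h ^ 2 := by ring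
        have hT3 : (A * B) ^ 2 / 2 ≤ G := by linarith
        refine ⟨by linarith, by linarith, by linarith, by linarith⟩
      · rcases le_or_gt (h / 4) (A * B) with hd5 | hd5
        · have hT4 : 0.5 * h ^ 2 ≤ G := by
            have h5 : h * (2.25 * (h / 4)) ≤ ρ * (2.25 * (A * B)) := by gcongr
            have h6 : h * (2.25 * (h / 4)) = 0.5625 * h ^ 2 := by ring
            linarith
          have hT3 : (A * B) ^ 2 ≤ (10 * h) ^ 2 := by gcongr
          have e2 : (10 * h) ^ 2 = 100 * h ^ 2 := by ring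
          refine ⟨by linarith, by linarith, by linarith, by linarith⟩
        · have hT4 := small hd5.le
          have hT3 : (A * B) ^ 2 ≤ (h / 4) ^ 2 := by gcongr
          have e2 : (h / 4) ^ 2 = h ^ 2 / 16 := by ring
          refine ⟨by linarith, by linarith, by linarith, by linarith⟩
    · subst h3
      have hT4 : 2 * B ^ 2 ≤ G := small (by
        calc A * y ≤ (1 / 4) * B := mul_le_mul hx h2.le hy0 (by norm_num)
          _ = B / 4 := by ring)
      refine ⟨by linarith, ?_, ?_, by linarith⟩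
      · have h5 : 0 ≤ (ρ * A - B) ^ 2 := sq_nonneg _
        have h6 : (ρ * A - B) ^ 2 = ρ ^ 2 * A ^ 2 - 2 * (ρ * (A * B)) + B ^ 2 := by ring
        linarith
      · have h5 : A * B ≤ 1 * B := by gcongr; linarith
        have h6 : (A * B) ^ 2 ≤ B ^ 2 := by
          calc (A * B) ^ 2 ≤ (1 * B) ^ 2 := by gcongr
            _ = _ := by ring
        linarith
  · rcases le_or_gt (2 * h ^ 2) (x * y) with hd4 | hd4
    · -- case 3b
      have hxy2 : A * B ≤ 2 * (x * y) := by
        rcases hBc with ⟨h2, h3⟩ | ⟨h2, h3⟩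
        · rw [hxA (by linarith), h3]
          have : 0 ≤ x * y := by linarith
          linarith
        · have h5 : A * B ≤ (4 * B) * B := by gcongr
          rw [h3] at h5 ⊢
          linarith
      have hxy3 : x * y ≤ A * B := mul_le_mul hAx hBy hy0 hA0.le
      have hp : (A * B) / 4 ≤ p := by linarith
      have hps : 0.75 * (A * B) ≤ 2 * p * s := by
        calc 0.75 * (A * B) = 2 * ((A * B) / 4) * (3 / 2) := by ring
          _ ≤ 2 * p * s := by gcongr
      have hT2 : ρ * (0.75 * (A * B)) ≤ G := le_trans (by gcongr) G2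
      have hρAB : 0 < ρ * (A * B) := by positivity
      have hT2' : ρ * (A * B) ≤ 2 * G := by linarith
      have hT1 : ρ ^ 2 * A ^ 2 ≤ 4 * (ρ * (A * B)) := by
        calc ρ ^ 2 * A ^ 2 = (ρ * A) * (ρ * A) := by ring
          _ ≤ (ρ * A) * (1 * (4 * B)) := by gcongr
          _ = _ := by ring
      rcases le_or_gt (20 * h) (A * B) with hd6 | hd6
      · have hp3 : ((A * B) / 4) ^ 2 ≤ p ^ 2 := by gcongr
        have hh3 : (20 * h) ^ 2 ≤ (A * B) ^ 2 := by gcongr
        have e1 : ((A * B) / 4) ^ 2 = (A * B) ^ 2 / 16 := by ring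
        have e2 : (20 * h) ^ 2 = 400 * h ^ 2 := by ring
        have hT3 : (A * B) ^ 2 * 0.04 ≤ G := by linarith
        refine ⟨by linarith, by linarith, by linarith, by linarith⟩
      · rcases le_or_gt (h / 4) (A * B) with hd5 | hd5
        · have hT4 : 0.18 * h ^ 2 ≤ G := by
            have h5 : h * (0.75 * (h / 4)) ≤ ρ * (0.75 * (A * B)) := by gcongr
            have h6 : h * (0.75 * (h / 4)) = 0.1875 * h ^ 2 := by ring
            linarith
          have hT3 : (A * B) ^ 2 ≤ (20 * h) ^ 2 := by gcongr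
          have e2 : (20 * h) ^ 2 = 400 * h ^ 2 := by ring
          refine ⟨by linarith, by linarith, by linarith, by linarith⟩
        · have hT4 := small (by linarith)
          have hT3 : (A * B) ^ 2 ≤ (h / 4) ^ 2 := by gcongr
          have e2 : (h / 4) ^ 2 = h ^ 2 / 16 := by ring
          refine ⟨by linarith, by linarith, by linarith, by linarith⟩
    · -- case 3c
      have hT4 : 2 * h ^ 2 ≤ G := small (by linarith)
      have hA16 : A ^ 2 ≤ 16 * h ^ 2 ∧ A * B ≤ 4 * h ^ 2 := by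
        rcases hBc with ⟨h2, h3⟩ | ⟨h2, h3⟩
        · have h5 := hxA (by linarith)
          subst h5
          subst h3
          have h6 : A * A ≤ A * (4 * B) := by gcongr
          constructor
          · calc A ^ 2 = A * A := by ring
              _ ≤ A * (4 * B) := h6
              _ = 4 * (A * B) := by ring
              _ ≤ _ := by linarith
          · linarith
        · subst h3
          constructor
          · calc A ^ 2 ≤ (4 * B) ^ 2 := by gcongr
              _ = _ := by ring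
          · calc A * B ≤ (4 * B) * B := by gcongr
              _ = _ := by ring
      obtain ⟨hA2, hAB2⟩ := hA16
      have hρ2 : ρ ^ 2 ≤ 1 := by nlinarith
      refine ⟨?_, ?_, ?_, by linarith⟩
      · calc ρ ^ 2 * A ^ 2 ≤ 1 * (16 * h ^ 2) := by gcongr
          _ ≤ _ := by linarith
      · calc ρ * (A * B) ≤ 1 * (4 * h ^ 2) := by gcongr
          _ ≤ _ := by linarith
      · have h5 : A * B ≤ 1 := by
          calc A * B ≤ 1 * 1 := by gcongr <;> linarith
            _ = 1 := by ring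
        calc (A * B) ^ 2 = (A * B) * (A * B) := by ring
          _ ≤ 1 * (4 * h ^ 2) := by gcongr
          _ ≤ _ := by linarith

/-- lower bound, ordered version -/
theorem lower' (h ρ x y d p s u v q G : ℝ) (h0 : 0 < h) (h1 : h ≤ 1 / 1000) (hρ : h ≤ ρ)
    (ρ1 : ρ ≤ 1) (hxy : y ≤ x) (hy0 : 0 ≤ y) (hd : x - y ≤ d)
    (hp0 : 0 ≤ p) (hp1 : x * y - h ^ 2 ≤ p) (hp2 : p ≤ x * y + h ^ 2) (hs : 2 - x - y ≤ s)
    (hu0 : 0 ≤ u) (hu1 : 1 - x ≤ u) (hu : u ≤ 1 + x) (hv0 : 0 ≤ v) (hv1 : 1 - y ≤ v)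
    (hv : v ≤ 1 + y)
    (hq1 : p ^ 2 - 4 * h ^ 2 * (u * v) ≤ q) (hq2 : 4 * h ^ 2 * (u * v) - p ^ 2 ≤ q)
    (G1 : ρ ^ 2 * d ^ 2 ≤ G) (G2 : ρ * (2 * p * s) ≤ G) (G3 : q ≤ G) :
    (max 1 x * max 1 y) ^ 2 * max (ρ ^ 2 * cl h x ^ 2) (max (ρ * (cl h x * cl h y))
          (max ((cl h x * cl h y) ^ 2) (h ^ 2))) ≤ 30000 * G := by
  have hρ0 : 0 < ρ := by linarith
  have hG0 : 0 ≤ G := le_trans (by positivity) G1
  have hA1 : cl h x ≤ 1 := cl_le_one (by linarith)
  have hB1 : cl h y ≤ 1 := cl_le_one (by linarith)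
  have hAh := h_le_cl h x
  have hBh := h_le_cl h y
  have hA0 : 0 < cl h x := by linarith
  have hB0 : 0 < cl h y := by linarith
  rcases le_or_gt x (1 / 4) with hx | hx
  · have hm1 : max 1 x = 1 := max_eq_left (by linarith)
    have hm2 : max 1 y = 1 := max_eq_left (by linarith)
    obtain ⟨k1, k2, k3, k4⟩ := low3 h ρ x y d p s u v q G h0 h1 hρ ρ1 hxy hx hy0 hd hp0 hp1 hp2
      (by linarith) (by linarith) (by linarith) (by linarith) (by linarith) hq1 hq2 G1 G2 G3
    rw [hm1, hm2, cl_small (by linarith : x ≤ 1), cl_small (by linarith : y ≤ 1)]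
    norm_num only [one_mul, one_pow]
    exact max_le k1 (max_le k2 (max_le k3 k4))
  · rcases le_or_gt y (1 / 8) with hy | hy
    · have hm2 : max 1 y = 1 := max_eq_left (by linarith)
      have key := low2 h ρ x y d p u v q G h0 h1 hρ hx hy0 hy hd hp1 hu0 hu hv0 hv hq1 G1 G3
      rw [hm2, mul_one]
      refine le_trans ?_ key
      have hmρ : ρ ≤ max ρ (cl h y) := le_max_left _ _
      have hmB : cl h y ≤ max ρ (cl h y) := le_max_right _ _
      generalize max ρ (cl h y) = m at *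
      generalize cl h x = A at *
      generalize cl h y = B at *
      have hm0 : 0 < m := by linarith
      refine mul_le_mul_of_nonneg_left ?_ (by positivity)
      refine max_le ?_ (max_le ?_ (max_le ?_ ?_))
      · calc ρ ^ 2 * A ^ 2 ≤ m ^ 2 * 1 ^ 2 := by gcongr
          _ = _ := by ring
      · calc ρ * (A * B) ≤ m * (1 * m) := by gcongr
          _ = _ := by ring
      · calc (A * B) ^ 2 ≤ (1 * m) ^ 2 := by gcongr
          _ = _ := by ring
      · calc h ^ 2 ≤ m ^ 2 := by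
              have : h ≤ m := by linarith
              gcongr
          _ = _ := by ring
    · have key := low1 h x y p u v q h0 h1 (by linarith) hy hp1 hu0 hu hv0 hv hq1
      have hR : max (ρ ^ 2 * cl h x ^ 2) (max (ρ * (cl h x * cl h y))
          (max ((cl h x * cl h y) ^ 2) (h ^ 2))) ≤ 1 := by
        generalize cl h x = A at *
        generalize cl h y = B at *
        refine max_le ?_ (max_le ?_ (max_le ?_ ?_))
        · calc ρ ^ 2 * A ^ 2 ≤ 1 ^ 2 * 1 ^ 2 := by gcongr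
            _ = _ := by ring
        · calc ρ * (A * B) ≤ 1 * (1 * 1) := by gcongr
            _ = _ := by ring
        · calc (A * B) ^ 2 ≤ (1 * 1) ^ 2 := by gcongr
            _ = _ := by ring
        · calc h ^ 2 ≤ 1 ^ 2 := by
                have : h ≤ 1 := by linarith
                gcongr
            _ = _ := by ring
      calc _ ≤ (max 1 x * max 1 y) ^ 2 * 1 := mul_le_mul_of_nonneg_left hR (by positivity)
        _ ≤ 30000 * G := by linarith

end Pool.Agent.P8H38.TQ
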