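import Pool.Agent.P8H38.TQ.G0
import Pool.Agent.P8H9.TQ.Stm

/-!
# Package GEST of project TQ (helper9), proved by helper38
-/

set_option autoImplicit false
set_option maxHeartbeats 2000000

namespace Pool.Agent.P8H38.TQ

open Pool.Agent.P8H9.TQ (clp S_GEST)

/-- the norms -/
theorem nrm (h : ℝ) (ε z₁ z₂ : ℂ) (he : ‖ε‖ = h ^ 2) :
    ‖2 * (z₁ * z₂ - ε) * (2 + z₁ + z₂)‖ = 2 * ‖z₁ * z₂ - ε‖ * ‖2 + z₁ + z₂‖ ∧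
    ‖z₁‖ * ‖z₂‖ - h ^ 2 ≤ ‖z₁ * z₂ - ε‖ ∧ ‖z₁ * z₂ - ε‖ ≤ ‖z₁‖ * ‖z₂‖ + h ^ 2 ∧
    2 - ‖z₁‖ - ‖z₂‖ ≤ ‖2 + z₁ + z₂‖ ∧ ‖2 + z₁ + z₂‖ ≤ 2 + ‖z₁‖ + ‖z₂‖ ∧
    ‖z₁ - z₂‖ ≤ ‖z₁‖ + ‖z₂‖ ∧ ‖z₁‖ - ‖z₂‖ ≤ ‖z₁ - z₂‖ ∧
    1 - ‖z₁‖ ≤ ‖z₁ + 1‖ ∧ ‖z₁ + 1‖ ≤ 1 + ‖z₁‖ ∧
    1 - ‖z₂‖ ≤ ‖z₂ + 1‖ ∧ ‖z₂ + 1‖ ≤ 1 + ‖z₂‖ ∧
    ‖z₁ * z₂ - ε‖ ^ 2 - 4 * h ^ 2 * (‖z₁ + 1‖ * ‖z₂ + 1‖) ≤
      ‖(z₁ * z₂ - ε) ^ 2 + 4 * ε * (z₁ + 1) * (z₂ + 1)‖ ∧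
    4 * h ^ 2 * (‖z₁ + 1‖ * ‖z₂ + 1‖) - ‖z₁ * z₂ - ε‖ ^ 2 ≤
      ‖(z₁ * z₂ - ε) ^ 2 + 4 * ε * (z₁ + 1) * (z₂ + 1)‖ ∧
    ‖(z₁ * z₂ - ε) ^ 2 + 4 * ε * (z₁ + 1) * (z₂ + 1)‖ ≤
      ‖z₁ * z₂ - ε‖ ^ 2 + 4 * h ^ 2 * (‖z₁ + 1‖ * ‖z₂ + 1‖) := by
  have e1 : ‖4 * ε * (z₁ + 1) * (z₂ + 1)‖ = 4 * h ^ 2 * (‖z₁ + 1‖ * ‖z₂ + 1‖) := by
    rw [norm_mul, norm_mul, norm_mul, he]
    norm_num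
    ring
  have e2 : ‖(z₁ * z₂ - ε) ^ 2‖ = ‖z₁ * z₂ - ε‖ ^ 2 := norm_pow _ _
  have e3 : ‖z₁ * z₂‖ = ‖z₁‖ * ‖z₂‖ := norm_mul _ _
  have n2 : ‖(2 : ℂ)‖ = 2 := by norm_num
  have n1 : ‖(1 : ℂ)‖ = 1 := norm_one
  refine ⟨?_, ?_, ?_, ?_, ?_, norm_sub_le _ _, norm_sub_norm_le _ _, ?_, ?_, ?_, ?_, ?_, ?_, ?_⟩
  · rw [norm_mul, norm_mul, n2]
  · have := norm_sub_norm_le (z₁ * z₂) ε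
    rw [e3, he] at this; exact this
  · have := norm_sub_le (z₁ * z₂) ε
    rw [e3, he] at this; exact this
  · have h1 := norm_sub_norm_le (2 : ℂ) (-(z₁ + z₂))
    have h2 := norm_add_le z₁ z₂
    have h3 : (2 : ℂ) - -(z₁ + z₂) = 2 + z₁ + z₂ := by ring
    rw [h3, norm_neg, n2] at h1
    linarith
  · have h1 := norm_add_le (2 + z₁) z₂
    have h2 := norm_add_le (2 : ℂ) z₁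
    rw [n2] at h2
    linarith
  · have h1 := norm_sub_norm_le (1 : ℂ) (-z₁)
    have h3 : (1 : ℂ) - -z₁ = z₁ + 1 := by ring
    rw [h3, norm_neg, n1] at h1
    linarith
  · have h1 := norm_add_le z₁ 1
    rw [n1] at h1
    linarith
  · have h1 := norm_sub_norm_le (1 : ℂ) (-z₂)
    have h3 : (1 : ℂ) - -z₂ = z₂ + 1 := by ring
    rw [h3, norm_neg, n1] at h1
    linarith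
  · have h1 := norm_add_le z₂ 1
    rw [n1] at h1
    linarith
  · have h1 := norm_sub_norm_le ((z₁ * z₂ - ε) ^ 2) (-(4 * ε * (z₁ + 1) * (z₂ + 1)))
    rw [sub_neg_eq_add, norm_neg, e1, e2] at h1
    exact h1
  · have h1 := norm_sub_norm_le (4 * ε * (z₁ + 1) * (z₂ + 1)) (-((z₁ * z₂ - ε) ^ 2))
    rw [sub_neg_eq_add, norm_neg, e1, e2, add_comm (4 * ε * (z₁ + 1) * (z₂ + 1))] at h1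
    exact h1
  · have h1 := norm_add_le ((z₁ * z₂ - ε) ^ 2) (4 * ε * (z₁ + 1) * (z₂ + 1))
    rw [e1, e2] at h1
    exact h1

theorem lowC (h ρ : ℝ) (ε z₁ z₂ : ℂ) (h0 : 0 < h) (h1 : h ≤ 1 / 1000)
    (he : ‖ε‖ = h ^ 2) (hρ : h ≤ ρ) (ρ1 : ρ ≤ 1) (hle : ‖z₂‖ ≤ ‖z₁‖) :
    (max 1 ‖z₁‖ * max 1 ‖z₂‖) ^ 2 *
    max (ρ ^ 2 * max (clp h z₁) (clp h z₂) ^ 2) (max (ρ * (clp h z₁ * clp h z₂))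
      (max ((clp h z₁ * clp h z₂) ^ 2) (h ^ 2))) ≤
    30000 * max (ρ ^ 2 * ‖(z₁ - z₂) ^ 2‖) (max (ρ * ‖2 * (z₁ * z₂ - ε) * (2 + z₁ + z₂)‖)
      ‖(z₁ * z₂ - ε) ^ 2 + 4 * ε * (z₁ + 1) * (z₂ + 1)‖) := by
  obtain ⟨k1, k2, k3, k4, k5, k6, k7, k8, k9, k10, k11, k12, k13, k14⟩ := nrm h ε z₁ z₂ he
  have hm : max (clp h z₁) (clp h z₂) = clp h z₁ := max_eq_left (cl_mono hle)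
  have key := lower' h ρ ‖z₁‖ ‖z₂‖ ‖z₁ - z₂‖ ‖z₁ * z₂ - ε‖ ‖2 + z₁ + z₂‖ ‖z₁ + 1‖ ‖z₂ + 1‖
    ‖(z₁ * z₂ - ε) ^ 2 + 4 * ε * (z₁ + 1) * (z₂ + 1)‖
    (max (ρ ^ 2 * ‖(z₁ - z₂) ^ 2‖) (max (ρ * ‖2 * (z₁ * z₂ - ε) * (2 + z₁ + z₂)‖)
      ‖(z₁ * z₂ - ε) ^ 2 + 4 * ε * (z₁ + 1) * (z₂ + 1)‖)) h0 h1 hρ ρ1 hle (norm_nonneg _) k7
    (norm_nonneg _) k2 k3 k4 (norm_nonneg _) k8 k9 (norm_nonneg _) k10 k11 k12 k13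
    (by rw [← norm_pow]; exact le_max_left _ _)
    (by rw [← k1]; exact (le_max_left _ _).trans (le_max_right _ _))
    ((le_max_right _ _).trans (le_max_right _ _))
  rw [hm]
  exact key

/-- **GEST** -/
theorem t_GEST : Pool.Agent.P8H9.TQ.S_GEST := by
  refine ⟨1 / 30000, 20, by norm_num, by norm_num, ?_⟩
  intro h ρ ε z₁ z₂ h0 h1 he hρ ρ1
  constructor
  · rcases le_total ‖z₂‖ ‖z₁‖ with hle | hle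
    · have := lowC h ρ ε z₁ z₂ h0 h1 he hρ ρ1 hle
      linarith
    · have := lowC h ρ ε z₂ z₁ h0 h1 he hρ ρ1 hle
      have e1 : ‖(z₂ - z₁) ^ 2‖ = ‖(z₁ - z₂) ^ 2‖ := by
        congr 1; ring
      have e2 : ‖2 * (z₂ * z₁ - ε) * (2 + z₂ + z₁)‖ = ‖2 * (z₁ * z₂ - ε) * (2 + z₁ + z₂)‖ := by
        congr 1; ring
      have e3 : ‖(z₂ * z₁ - ε) ^ 2 + 4 * ε * (z₂ + 1) * (z₁ + 1)‖ =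
          ‖(z₁ * z₂ - ε) ^ 2 + 4 * ε * (z₁ + 1) * (z₂ + 1)‖ := by
        congr 1; ring
      rw [e1, e2, e3, mul_comm (max 1 ‖z₂‖), max_comm (clp h z₂) (clp h z₁),
        mul_comm (clp h z₂) (clp h z₁)] at this
      linarith
  · obtain ⟨k1, k2, k3, k4, k5, k6, k7, k8, k9, k10, k11, k12, k13, k14⟩ := nrm h ε z₁ z₂ he
    have key := upper h ρ ‖z₁‖ ‖z₂‖ ‖z₁ - z₂‖ ‖z₁ * z₂ - ε‖ ‖2 + z₁ + z₂‖ ‖z₁ + 1‖ ‖z₂ + 1‖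
      ‖(z₁ * z₂ - ε) ^ 2 + 4 * ε * (z₁ + 1) * (z₂ + 1)‖ h0 h1 hρ (norm_nonneg _) (norm_nonneg _)
      (norm_nonneg _) k6 (norm_nonneg _) k3 (norm_nonneg _) k5 (norm_nonneg _) k9 (norm_nonneg _)
      k11 k14
    rw [k1, norm_pow]
    exact key

end Pool.Agent.P8H38.TQ
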